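import Mathlib
import Pool.Agent.Helper91.Realize

/-!
Counterexample: a metrizable indecomposable continuum `X` and a subcontinuum `W` of `X × X` with
nonempty interior such that `T(W) ≠ X × X`.

`X` is the inverse limit of all finite coverings of the figure eight (a matchbox space all of whose
leaves are trees).  In the product of two figure eights there are two disjoint connected subgraphs
both of which carry the whole fundamental group; closed neighbourhoods of their preimages are
disjoint subcontinua with nonempty interior.
-/

open Set TopologicalSpace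

namespace Pool.Agent.Results.MP_cdfe0d_gt.TNotEverything

/-- A continuum is a nonempty compact connected Hausdorff space (`ConnectedSpace` includes
nonemptiness). -/
def IsContinuum (X : Type) [TopologicalSpace X] : Prop :=
  CompactSpace X ∧ T2Space X ∧ ConnectedSpace X

/-- A subcontinuum of a space is a subset that is a continuum in the subspace topology. -/
def IsSubcontinuum {S : Type} [TopologicalSpace S] (K : Set S) : Prop :=
  IsContinuum (↥K)

/-- A continuum is indecomposable if it is not the union of two proper subcontinua. -/
def IsIndecomposableContinuum (X : Type) [TopologicalSpace X] : Prop :=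
  IsContinuum X ∧
    ¬ ∃ A B : Set X, IsSubcontinuum A ∧ IsSubcontinuum B ∧ A ≠ univ ∧ B ≠ univ ∧ A ∪ B = univ

/-- Jones's set function `T`: the points having no subcontinuum neighbourhood that misses `A`. -/
def setT {S : Type} [TopologicalSpace S] (A : Set S) : Set S :=
  univ \ {p | ∃ K : Set S, IsSubcontinuum K ∧ p ∈ interior K ∧ K ∩ A = ∅}

lemma isSubcontinuum_of {S : Type} [TopologicalSpace S] [T2Space S] {K : Set S}
    (h1 : IsCompact K) (h2 : IsPreconnected K) (h3 : K.Nonempty) : IsSubcontinuum K :=
  ⟨isCompact_iff_compactSpace.mp h1, inferInstance, isConnected_iff_connectedSpace.mp ⟨h3, h2⟩⟩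

open Pool.Agent.Helper91 in
theorem main {Z X : Type} [TopologicalSpace Z] [CompactSpace Z] [T2Space Z] [TopologicalSpace X]
    [T2Space X] {s : Bool → Z → Z} {z0 : Z} {q : Z × Bool × unitInterval → X}
    (hG : Good Z s z0) (hinj : ∀ b, Function.Injective (s b)) (hq : IsSusp s q) :
    IsIndecomposableContinuum X ∧
      ∃ W : Set (X × X), IsSubcontinuum W ∧ (interior W).Nonempty ∧ setT W ≠ univ := by
  have hX : CompactSpace X := by
    have : range q = univ := hq.surj.range_eq
    exact ⟨by rw [← this]; exact isCompact_range hq.cont⟩
  have hconn : ConnectedSpace X := hq.connectedSpace hG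
  refine ⟨⟨⟨hX, inferInstance, hconn⟩, ?_⟩, ?_⟩
  · rintro ⟨A, B, hA, hB, hAne, hBne, hAB⟩
    have hAc : IsCompact A := isCompact_iff_compactSpace.mpr hA.1
    have hBc : IsCompact B := isCompact_iff_compactSpace.mpr hB.1
    have hBp : IsPreconnected B := (isConnected_iff_connectedSpace.mpr hB.2.2).isPreconnected
    have hint := hq.interior_eq_empty hG B hBc.isClosed hBp hBne
    have hsub : Aᶜ ⊆ interior B := by
      apply interior_maximal _ hAc.isClosed.isOpen_compl
      intro x hx
      have : x ∈ A ∪ B := by rw [hAB]; trivial
      exact this.resolve_left hx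
    rw [hint] at hsub
    exact hAne (compl_empty_iff.mp (subset_empty_iff.mp hsub))
  · refine ⟨Wset q, ?_, hq.W_interior z0, ?_⟩
    · exact isSubcontinuum_of (Wset_compact hq.cont) (hq.W_preconnected hG)
        ((hq.W_interior z0).mono interior_subset)
    · intro h
      obtain ⟨p, hp⟩ := hq.W'_interior z0
      have hpT : p ∈ setT (Wset q) := by rw [h]; trivial
      apply hpT.2
      refine ⟨Wset (refl' q), ?_, hp, hq.disjoint⟩
      refine isSubcontinuum_of (Wset_compact ?_) (hq.W'_preconnected hG hinj)
        ((hq.W'_interior z0).mono interior_subset)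
      exact hq.cont.comp (continuous_fst.prodMk ((continuous_fst.comp continuous_snd).prodMk
        (unitInterval.continuous_symm.comp (continuous_snd.comp continuous_snd))))

/-- There are a metrizable indecomposable continuum `X` and a subcontinuum `W` of `X × X` with
nonempty interior and `T(W) ≠ X × X`. -/
theorem result : ∃ (X : Type) (_ : TopologicalSpace X),
    MetrizableSpace X ∧ IsIndecomposableContinuum X ∧
      ∃ W : Set (X × X), IsSubcontinuum W ∧ (interior W).Nonempty ∧ setT W ≠ univ := by
  let j : Pool.Agent.Helper91.Prof.ZZ → Pool.Agent.Helper91.Prof.Idx → ℝ :=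
    fun z i => ((z.1 i : ℕ) : ℝ)
  have hj : Continuous j := by
    refine continuous_pi fun i => ?_
    exact (continuous_of_discreteTopology (f := fun k : Fin i.1 => ((k : ℕ) : ℝ))).comp
      ((continuous_apply i).comp continuous_subtype_val)
  have hjinj : Function.Injective j := by
    intro z z' h
    apply Subtype.ext
    funext i
    have := congrFun h i
    simp only [j] at this
    exact Fin.ext (by exact_mod_cast this)
  have hsinj : ∀ b, Function.Injective (Pool.Agent.Helper91.Prof.sg b) := by
    intro b z z' h
    apply Subtype.ext
    funext i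
    have h1 : Pool.Agent.Helper91.Prof.act b z.1 = Pool.Agent.Helper91.Prof.act b z'.1 :=
      congrArg Subtype.val h
    exact (i.2.1 b).injective (congrFun h1 i)
  refine ⟨Pool.Agent.Helper91.XX Pool.Agent.Helper91.Prof.sg j, inferInstance, inferInstance, ?_⟩
  exact main Pool.Agent.Helper91.Prof.good hsinj
    (Pool.Agent.Helper91.isSusp_qq _ Pool.Agent.Helper91.Prof.sg_cont j hj hjinj)

end Pool.Agent.Results.MP_cdfe0d_gt.TNotEverything
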